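import Pool.Agent.H953R3.JT.Surf

/-!
# Unit Jones polynomials of links in thickened surfaces with many twist regions: a linear bound

Diagrams: `Pool.Agent.H891R2.Jones.Diagram` (`Crossing`, `Diagram`: oriented diagrams with marked
points; the arcs only say which marked points are joined, so these are diagrams of links in
thickened surfaces, that is, of virtual links; `Diagram.bracket`, `Diagram.fPoly`: the state sum and
the normalised bracket, all loops counting equally) and `Pool.Agent.H891R2.MT.Defs` (`UDiagram`,
`Orients D U`).

Templates: `Pool.Agent.H832R3.TW.Defs` (`Corner k`: the `4 k` corners of `k` boxes; a template is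
the list `arcs` of the pairs of corners joined outside of the boxes; `twisted arcs n`: the diagram
in which the box `e` contains a row of `|n e|` crossings of the kind given by the sign of `n e`;
`loops arcs S`: the number of components if the boxes `e ∈ S` contain two vertical strands and the
other boxes two horizontal ones; `Nugatory arcs`: `loops arcs S + |S| = loops arcs ∅` for all `S`).
`FSpanLE s D` (in `Pool.Agent.H832R3.TW.E`): the normalised bracket of `D` is supported in an
interval of length at most `4 s`; the diagrams with unit Jones polynomial satisfy `FSpanLE 0`.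

Proof: if the span is small then one of the two extreme values of `n(S) = ∑ e ∈ S, n e` (over the
states `S` with a nonvanishing polynomial) is nearly attained by a second state, and the isolation
lemma of Mulmuley, Vazirani and Vazirani bounds the number of such `n`.
-/

set_option autoImplicit false

namespace Pool.Agent.Results.MP_7bc610_gt.PolynomialTwistRegions

open Finset Pool.Agent.H891R2.Jones Pool.Agent.H891R2.MT Pool.Agent.H832R3.TW Pool.Agent.H953R3.JT

open Classical in
/-- Let `arcs` be a template with `k` boxes on an arbitrary surface such that not all boxes are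
nugatory, and let `D(n)`, `n ∈ ℤ^k`, be the diagram with `|n e|` crossings in the box `e`.

* Let `A e ⊂ ℤ` be arbitrary finite sets with at least `M` elements. Among the links `D(n)`,
  `n ∈ ∏ A e`, the proportion of those with a Jones polynomial of span at most `s` (for some
  directions; for `s = 0`: for instance unit Jones polynomial) is at most `2 k (8 k + 2 s + 3) / M`.
* For at most `2 k (8 k + 2 s + 3) (2 N + 1)^(k-1)` of the `(2 N + 1)^k` links with `|n e| ≤ N` for
  all `e` the span is at most `s`. -/
theorem result (k : ℕ) (arcs : List (Corner k × Corner k)) (hτ : ¬ Nugatory arcs) (s : ℕ) :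
    (∀ (A : Fin k → Finset ℤ) (M : ℕ), (∀ e, M ≤ (A e).card) →
      M * #{n ∈ Fintype.piFinset A | ∃ D : Diagram (Ribbon.Pt n),
          Orients D (twisted arcs n) ∧ FSpanLE s D} ≤
        2 * k * (8 * k + 2 * s + 3) * ∏ e, (A e).card) ∧
    ∀ N : ℕ, {n : Fin k → ℤ | (∀ e, |n e| ≤ N) ∧ ∃ D : Diagram (Ribbon.Pt n),
          Orients D (twisted arcs n) ∧ FSpanLE s D}.ncard ≤
        2 * k * (8 * k + 2 * s + 3) * (2 * N + 1) ^ (k - 1) := by
  refine ⟨fun A M hM => count_surface arcs hτ s A M hM, fun N => ?_⟩
  have hk := pos_of_not_nugatory arcs hτ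
  have h := count_surface arcs hτ s (fun _ => Finset.Icc (-(N : ℤ)) N) (2 * N + 1) (fun e => by
    rw [Int.card_Icc]
    omega)
  have hc : ∏ e : Fin k, (Finset.Icc (-(N : ℤ)) N).card = (2 * N + 1) ^ k := by
    rw [Finset.prod_const, Finset.card_univ, Fintype.card_fin, Int.card_Icc]
    congr 1
    omega
  rw [hc] at h
  have hset : {n : Fin k → ℤ | (∀ e, |n e| ≤ N) ∧ ∃ D : Diagram (Ribbon.Pt n),
          Orients D (twisted arcs n) ∧ FSpanLE s D} =
      (({n ∈ Fintype.piFinset (fun _ : Fin k => Finset.Icc (-(N : ℤ)) N) | 
        ∃ D : Diagram (Ribbon.Pt n), Orients D (twisted arcs n) ∧ FSpanLE s D} :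
        Finset (Fin k → ℤ)) : Set (Fin k → ℤ)) := by
    ext n
    simp only [Set.mem_ofPred_eq, Finset.coe_filter, Fintype.mem_piFinset, Finset.mem_Icc, abs_le]
  rw [hset, Set.ncard_coe_finset]
  have hpow : (2 * N + 1) ^ k = (2 * N + 1) * (2 * N + 1) ^ (k - 1) := by
    rw [← pow_succ']
    congr 1
    omega
  rw [hpow] at h
  have hpos : 0 < (2 * N + 1) := by positivity
  refine Nat.le_of_mul_le_mul_left ?_ hpos
  calc _ ≤ _ := h
    _ = _ := by ring

end Pool.Agent.Results.MP_7bc610_gt.PolynomialTwistRegions
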