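import Pool.Agent.H953R3.Q2.Om4

/-!
# Unit Jones polynomials of links in thickened surfaces: a bound which does not depend on the number
of twist regions

Diagrams: `Pool.Agent.H891R2.Jones.Diagram` (`Crossing`, `Diagram`: oriented diagrams with marked
points; the arcs only say which marked points are joined, so these are diagrams of links in
thickened surfaces, that is, of virtual links; `Diagram.bracket`, `Diagram.fPoly`: the state sum and
the normalised bracket, a Laurent polynomial in `A = T 1`, all loops counting equally) and
`Pool.Agent.H891R2.MT.Defs` (`Ribbon k`: a ribbon graph with `k` edges, given by the rotation system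
on its `2 k` darts, that is, a graph with a cellular embedding in a closed oriented surface of any
genus; `Ribbon.verts`, `Ribbon.comps Γ S`: numbers of vertices and of components of the spanning
subgraph with edge set `S`; `Ribbon.link n`: the unoriented diagram on this surface which is the
boundary of the subsurface made of one disc for every vertex and, for every edge `e`, a band with
`n e` half twists, that is, a row of `|n e|` crossings; `Orients D U`: `D` is the unoriented diagram
`U` with directions).

`Pool.Agent.H953R3.Q2.Fin2`: `Balanced M F A`: for every edge `e ∈ F` the set `A e` contains either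
no even numbers or at least `M`, and either no odd numbers or at least `M`.

Proof: the moments of order `≤ 2` of the state sum at `A = 1` are sums of characters over pairs of
cycles with `ℤ/2` coefficients, the quadratic part being given by the intersection form of the
surface plus the parities of the `n e`; not all covariances vanish (Hermitian Gauss sums), so that on
every parity class the invariant `m₀ m₂ - m₁²` is a nonconstant quadratic polynomial in `n`.
-/

set_option autoImplicit false

namespace Pool.Agent.Results.MP_7bc610_gt.RibbonContact

open Finset LaurentPolynomial Pool.Agent.H891R2.Jones Pool.Agent.H891R2.MT Pool.Agent.H953R3.Q2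

open Classical in
/-- Let `Γ` be a ribbon graph with `k ≥ 1` edges on a closed oriented surface of arbitrary genus,
which is not a forest, and let `D(n)`, `n ∈ ℤ^k`, be the link diagram on this surface with `|n e|`
crossings on the edge `e`. Let `f` be a Laurent polynomial, for instance `f = 1`.

* Let `F` be a set of edges such that the other edges form a forest, and let `A e ⊂ ℤ` be finite
  sets such that, for `e ∈ F`, the even (odd) elements of `A e` are none or at least `M`. Among the
  links `D(n)`, `n ∈ ∏ A e`, the proportion of those whose normalised bracket, for some directions,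
  agrees with `f` up to terms of order `3` at `A = 1` is at most `2 / M`; in particular this bounds
  the proportion of those with normalised bracket `f`.
* At most `(2 / N) (2 N + 1) ^ k` of the `(2 N + 1) ^ k` diagrams `D(n)` with `|n e| ≤ N` for all `e`
  have, for some directions, the normalised bracket `f`. -/
theorem result (k : ℕ) (hk : 0 < k) (Γ : Ribbon k) (hΓ : Γ.verts < k + Γ.comps Finset.univ) 
    (f : ℤ[T;T⁻¹]) :
    (∀ (F : Finset (Fin k)), Fᶜ.card + Γ.comps Fᶜ = Γ.verts → 
      ∀ (M : ℕ) (A : Fin k → Finset ℤ), Balanced M F A →
      M * #{n ∈ Fintype.piFinset A | ∃ D : Diagram (Ribbon.Pt n), Orients D (Γ.link n) ∧ 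
          (T 1 - 1 : ℤ[T;T⁻¹]) ^ 3 ∣ D.fPoly - f} ≤ 2 * ∏ e, (A e).card ∧
      M * #{n ∈ Fintype.piFinset A | ∃ D : Diagram (Ribbon.Pt n), Orients D (Γ.link n) ∧ 
          D.fPoly = f} ≤ 2 * ∏ e, (A e).card) ∧
    ∀ (N : ℕ), N * {n : Fin k → ℤ | (∀ e, |n e| ≤ N) ∧ ∃ D : Diagram (Ribbon.Pt n),
        Orients D (Γ.link n) ∧ D.fPoly = f}.ncard ≤ 2 * (2 * N + 1) ^ k := 
  ⟨fun F hF M A hA => ⟨count_dvdT Γ hk hΓ F hF f M A hA, count_eqT Γ hk hΓ F hF f M A hA⟩, 
    fun N => count_cube Γ _ N fun A hA => count_eqT Γ hk hΓ Finset.univ (empty_forest Γ) f N A hA⟩

end Pool.Agent.Results.MP_7bc610_gt.RibbonContact
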